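import Pool.Agent.Y6.H.Stm2
import Pool.Agent.Y438.EF.Dil

/-! Dilation, deterministic part (job HR-DILB, after `Y438/EF/Dil.lean` and `Y6/F/Dil2.lean`). -/

open Set Filter Topology
open scoped ComplexConjugate

set_option autoImplicit false

namespace Pool.Agent.Y898.HR.Dilb

open Pool.Agent.Y6.M (Z3 C3 Coef dt cr cj kc nsq len adv leray Kop IsField IsSol energy enstr Md br)
open Pool.Agent.Y6.F (S_UNIQ)
open Pool.Agent.Y6.H
open Pool.Agent.Y438.EF.DIL
open Pool.Agent.Y331.EF.SCALE (dt_smul_right dt_smul_left cr_smul_right leray_smul)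

section

variable {L : ℕ} (hL : 0 < L) {M N m n : Z3 → ℝ} (hM : ∀ k, M (mk L k) = m k)
  (hN : ∀ k, N (mk L k) = n k)

include hL hM hN

theorem kop_mk' (V : Coef) (k : Z3) (j : Fin 3) :
    Kop M N (ds L V) (mk L k) j = ((L : ℝ) : ℂ)⁻¹ * Kop m n V k j := by
  have hLC := hLC hL
  rw [Kop, Kop, hM, hN, ds_mk hL, len_mk, kc_mk, cr_smul_left, cr_smul_right]
  push_cast at hLC ⊢
  field_simp

theorem rhs_mk' (V : Coef) (k : Z3) (j : Fin 3) :
    Kop M N (ds L V) (mk L k) j - leray (mk L k) (adv (ds L V) (mk L k)) j =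
      ((L : ℝ) : ℂ)⁻¹ * (Kop m n V k j - leray k (adv V k) j) := by
  have e : adv (ds L V) (mk L k) = fun j => ((L : ℝ) : ℂ)⁻¹ * adv V k j :=
    funext fun j => adv_mk hL V k j
  rw [kop_mk' hL hM hN, leray_mk hL, e, leray_smul]
  ring

omit hL hM hN in
theorem rhs_not' (M N : Z3 → ℝ) (V : Coef) {k : Z3} (hk : ¬ Dv L k) (j : Fin 3) :
    Kop M N (ds L V) k j - leray k (adv (ds L V) k) j = 0 := by
  rw [Kop, leray, adv_not V hk, ds_not V hk, cr_zero, dt_zero_right]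
  simp

theorem sol_ds' {T : ℝ} {V : ℝ → Coef} (h : IsSol m n T V) :
    IsSol M N T (fun t => ds L (V t)) where
  field := (sol_ds hL h).field
  reg := (sol_ds hL h).reg
  eqn := by
    intro k hk j t ht
    rcases cases_mk (L := L) k with ⟨k', rfl⟩ | h'
    · have hk' : k' ≠ 0 := by
        rintro rfl
        exact hk (mk_zero L)
      rw [rhs_mk' hL hM hN]
      have h1 := (h.eqn k' hk' j t ht).const_mul (((L : ℝ) : ℂ)⁻¹)
      refine h1.congr_of_eventuallyEq ?_ ?_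
      · refine Eventually.of_forall fun s => ?_
        change ds L (V s) (mk L k') j = ((L : ℝ) : ℂ)⁻¹ * V s k' j
        rw [ds_mk hL]
      · change ds L (V t) (mk L k') j = ((L : ℝ) : ℂ)⁻¹ * V t k' j
        rw [ds_mk hL]
    · rw [rhs_not' M N (V t) h' j]
      have h1 : (fun s => ds L (V s) k j) = fun _ => (0 : ℂ) := by
        funext s
        rw [ds_not (V s) h']
        rfl
      rw [h1]
      exact hasDerivWithinAt_const _ _ _

end

theorem mk_ne {L : ℕ} (hL : L ≠ 0) {k : Z3} (hk : k ≠ 0) : mk L k ≠ 0 := by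
  intro h
  apply hk
  apply mk_inj (Nat.pos_of_ne_zero hL)
  rw [h, mk_zero]

theorem mH_mk {L : ℕ} (hL : L ≠ 0) (ω : Md → ℝ) (k : Z3) :
    mH ω (mk L k) = mH (fun i => ω (dil L hL i)) k := by
  by_cases hk : k = 0
  · subst hk
    rw [mk_zero]
    unfold mH
    rw [dif_pos rfl, dif_pos rfl]
  · unfold mH
    rw [dif_neg (mk_ne hL hk), dif_neg hk]
    rfl

theorem nH_mk {L : ℕ} (hL : L ≠ 0) (ω : Md → ℝ) (k : Z3) :
    nH ω (mk L k) = nH (fun i => ω (dil L hL i)) k := by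
  by_cases hk : k = 0
  · subst hk
    rw [mk_zero]
    unfold nH
    rw [dif_pos rfl, dif_pos rfl]
  · unfold nH
    rw [dif_neg (mk_ne hL hk), dif_neg hk]
    rfl

theorem mH_neg {ω : Md → ℝ} (h : ∀ i, ω (br i) = -ω i) (k : Z3) : mH ω (-k) = -mH ω k := by
  by_cases hk : k = 0
  · subst hk
    rw [neg_zero]
    unfold mH
    rw [dif_pos rfl, neg_zero]
  · have h1 : ω (⟨-k, neg_ne_zero.2 hk⟩, true) = -ω (⟨k, hk⟩, true) := h (⟨k, hk⟩, true)
    have h2 : ω (⟨-k, neg_ne_zero.2 hk⟩, false) = -ω (⟨k, hk⟩, false) := h (⟨k, hk⟩, false)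
    unfold mH
    rw [dif_neg (neg_ne_zero.2 hk), dif_neg hk, h1, h2]
    ring

theorem nH_neg {ω : Md → ℝ} (h : ∀ i, ω (br i) = -ω i) (k : Z3) : nH ω (-k) = -nH ω k := by
  by_cases hk : k = 0
  · subst hk
    rw [neg_zero]
    unfold nH
    rw [dif_pos rfl, neg_zero]
  · have h1 : ω (⟨-k, neg_ne_zero.2 hk⟩, true) = -ω (⟨k, hk⟩, true) := h (⟨k, hk⟩, true)
    have h2 : ω (⟨-k, neg_ne_zero.2 hk⟩, false) = -ω (⟨k, hk⟩, false) := h (⟨k, hk⟩, false)
    unfold nH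
    rw [dif_neg (neg_ne_zero.2 hk), dif_neg hk, h1, h2]
    ring

theorem t_DILB : Pool.Agent.Y6.H.S_DILB := by
  intro hU L hL' ω hodd hB q ε hε
  have hL : 0 < L := Nat.pos_of_ne_zero hL'
  have hL1 : (1 : ℝ) ≤ L := by exact_mod_cast hL
  have hL0 : (0 : ℝ) < L := by linarith
  obtain ⟨T, V, hV0, hT, hsol, _, _, hens⟩ := hB q (ε / (L : ℝ) ^ q) (by positivity)
  have hsol' : IsSol (mH ω) (nH ω) T (fun t => ds L (V t)) :=
    sol_ds' hL (mH_mk hL' ω) (nH_mk hL' ω) hsol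
  have hu' := hU (mH ω) (nH ω)
  refine ⟨T, fun t => ds L (V t), ?_, hT, hsol', ?_, ?_, ?_⟩
  · intro k j
    change len k ^ q * ‖ds L (V 0) k j‖ ≤ ε
    rcases cases_mk (L := L) k with ⟨k', rfl⟩ | h'
    · rw [ds_mk hL, len_mk]
      simp only
      rw [norm_mul, norm_inv, Complex.norm_real, Real.norm_eq_abs, abs_of_pos hL0, mul_pow]
      have hLi : (L : ℝ)⁻¹ ≤ 1 := inv_le_one_of_one_le₀ hL1
      have h1 : 0 ≤ len k' ^ q * ‖V 0 k' j‖ :=
        mul_nonneg (pow_nonneg (len_nonneg _) _) (norm_nonneg _)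
      calc (L : ℝ) ^ q * len k' ^ q * ((L : ℝ)⁻¹ * ‖V 0 k' j‖) =
          (L : ℝ) ^ q * ((L : ℝ)⁻¹ * (len k' ^ q * ‖V 0 k' j‖)) := by ring
        _ ≤ (L : ℝ) ^ q * (1 * (len k' ^ q * ‖V 0 k' j‖)) := by gcongr
        _ ≤ (L : ℝ) ^ q * (ε / (L : ℝ) ^ q) := by
          rw [one_mul]
          gcongr
          exact hV0 k' j
        _ = ε := by field_simp
    · rw [ds_not (V 0) h']
      simp only [Pi.zero_apply, norm_zero, mul_zero]
      exact hε.le
  · intro T' W hT' hW hW0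
    have heq : ∀ t ∈ Ico 0 (min T T'), W t = ds L (V t) := by
      intro t ht
      exact (hu' (min T T') (mH_neg hodd) (nH_neg hodd)).1 W (fun t => ds L (V t))
        (sol_mono hW (min_le_right _ _)) (sol_mono hsol' (min_le_left _ _)) hW0 t ht
    have hle : T' ≤ T := by
      by_contra hcon
      push Not at hcon
      rw [min_eq_left hcon.le] at heq
      obtain ⟨K, hK⟩ := hW.reg 4 T hcon
      obtain ⟨t, ht, hKt⟩ := hens (24 * K ^ 2 * ∑' k, wt k)
      have h1 := enstr_le (W t) K (hK t ⟨ht.1, ht.2.le⟩)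
      rw [heq t ht, enstr_ds hL] at h1
      linarith
    refine ⟨hle, fun t ht => heq t ?_⟩
    rw [min_eq_right hle]
    exact ht
  · intro t ht
    exact (hu' T (mH_neg hodd) (nH_neg hodd)).2 (fun t => ds L (V t)) hsol' t ht
  · intro K
    obtain ⟨t, ht, hKt⟩ := hens K
    refine ⟨t, ht, ?_⟩
    rw [enstr_ds hL]
    exact hKt

end Pool.Agent.Y898.HR.Dilb
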